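import Mathlib
import Pool.Agent.Lib.MP_d56194_co.H.H12

set_option autoImplicit false

namespace Pool.MP_d56194_co

open Finset

theorem phases_enough3 (s V : ℕ) (hV : V ≤ s * s * (4 * ((s + 1) * (s + 1)) + 1)) :
    V * 3 ^ (13 * (Nat.log 2 s + 1)) < 4 ^ (13 * (Nat.log 2 s + 1)) := by
  set l := Nat.log 2 s + 1 with hl
  have hl1 : 1 ≤ l := by omega
  have h1 : s < 2 ^ l := Nat.lt_pow_succ_log_self (by norm_num) s
  have h6 : V ≤ 32 ^ l := by
    rcases Nat.lt_or_ge s 2 with hs | hs
    · have h7 : V ≤ 32 := by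
        have h8 : s = 0 ∨ s = 1 := by omega
        rcases h8 with h8 | h8
        · subst h8
          omega
        · subst h8
          omega
      calc V ≤ 32 ^ 1 := by simpa using h7
        _ ≤ 32 ^ l := Nat.pow_le_pow_right (by norm_num) hl1
    · have h2 : s * s * (4 * ((s + 1) * (s + 1)) + 1) ≤ 4 * (s + 1) ^ 4 := by
        have h3 : 4 * (s + 1) ^ 4 = s * s * (4 * ((s + 1) * (s + 1)) + 1) +
            (8 * s ^ 3 + 19 * s ^ 2 + 16 * s + 4) := by ring
        omega
      have h4 : (s + 1) ^ 4 ≤ (2 ^ l) ^ 4 := Nat.pow_le_pow_left (by omega) 4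
      have hl2 : 2 ≤ l := by
        have : 1 ≤ Nat.log 2 s := Nat.log_pos (by norm_num) hs
        omega
      have h5 : 4 ≤ 2 ^ l := by
        calc 4 = 2 ^ 2 := by norm_num
          _ ≤ 2 ^ l := Nat.pow_le_pow_right (by norm_num) hl2
      calc V ≤ 4 * (s + 1) ^ 4 := le_trans hV h2
        _ ≤ 2 ^ l * (2 ^ l) ^ 4 := Nat.mul_le_mul h5 h4
        _ = (2 ^ l) ^ 5 := by ring
        _ = 32 ^ l := by
          rw [← pow_mul, mul_comm, pow_mul]
          norm_num
  calc V * 3 ^ (13 * l) ≤ 32 ^ l * 3 ^ (13 * l) := Nat.mul_le_mul_right _ h6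
    _ = 51018336 ^ l := by
        rw [pow_mul, ← Nat.mul_pow]
        norm_num
    _ < 67108864 ^ l := Nat.pow_lt_pow_left (by norm_num) (by omega)
    _ = 4 ^ (13 * l) := by
        rw [pow_mul]
        norm_num

theorem lev_iff (Λ : Finset ℕ) (x v : ℕ) (hx : x ∈ Λ) :
    (Λ.filter (fun y => y ≤ v)).card < (Λ.filter (fun y => y ≤ x)).card ↔ v < x := by
  classical
  constructor
  · intro h
    by_contra hcon
    have h1 : (Λ.filter (fun y => y ≤ x)) ⊆ (Λ.filter (fun y => y ≤ v)) := by
      intro y hy
      rw [Finset.mem_filter] at hy ⊢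
      exact ⟨hy.1, by omega⟩
    have h2 := Finset.card_le_card h1
    omega
  · intro h
    apply Finset.card_lt_card
    rw [Finset.ssubset_iff_of_subset]
    · refine ⟨x, Finset.mem_filter.mpr ⟨hx, le_rfl⟩, ?_⟩
      intro h1
      rw [Finset.mem_filter] at h1
      omega
    · intro y hy
      rw [Finset.mem_filter] at hy ⊢
      exact ⟨hy.1, by omega⟩

/-- elements of a group with a small rank -/
theorem rank_card {E A : Type} [Fintype E] [DecidableEq A] (f : E → A) (key : E → ℕ)
    (hkey : Function.Injective key) (a : A) (n : ℕ) :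
    (univ.filter (fun e => f e = a ∧ rkey f key e < n)).card ≤ n := by
  classical
  have h1 : (univ.filter (fun e => f e = a ∧ rkey f key e < n)).card ≤ (range n).card := by
    apply Finset.card_le_card_of_injOn (fun e => rkey f key e)
    · intro e he
      rw [Finset.mem_coe, Finset.mem_filter] at he
      exact Finset.mem_coe.mpr (Finset.mem_range.mpr he.2.2)
    · intro e he e' he' hee
      rw [Finset.mem_coe, Finset.mem_filter] at he he'
      exact rkey_inj f key hkey e e' (by rw [he.2.1, he'.2.1]) hee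
  rwa [Finset.card_range] at h1

/-- the elements whose rank exceeds the capacity of their group -/
theorem excess_card {E A : Type} [Fintype E] [DecidableEq A] (f : E → A) (key : E → ℕ)
    (hkey : Function.Injective key) (t : ℕ) (L : Finset A) (hL : ∀ e, f e ∈ L) (R : A → ℕ)
    (B : ℕ) (h : ∀ a ∈ L, (univ.filter (fun e => f e = a ∧ key e < t)).card ≤ R a + B) :
    (univ.filter (fun e => key e < t ∧ R (f e) ≤ rkey f key e)).card ≤ L.card * B := by
  classical
  rw [Finset.card_eq_sum_card_fiberwise (f := f) (t := L) (by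
    intro e _
    exact Finset.mem_coe.mpr (hL e))]
  refine le_trans (Finset.sum_le_card_nsmul _ _ B ?_) (le_of_eq (by rw [smul_eq_mul]))
  intro a ha
  have h1 : (Ico (R a) (R a + B)).card = B := by
    rw [Nat.card_Ico, Nat.add_sub_cancel_left]
  refine le_trans ?_ (le_of_eq h1)
  apply Finset.card_le_card_of_injOn (fun e => rkey f key e)
  · intro e he
    rw [Finset.mem_coe, Finset.mem_filter, Finset.mem_filter] at he
    have h2 := rkey_lt f key e t he.1.2.1
    rw [he.2] at h2
    have h3 := h a ha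
    have h4 := he.1.2.2
    rw [he.2] at h4
    refine Finset.mem_coe.mpr (Finset.mem_Ico.mpr ?_)
    show R a ≤ rkey f key e ∧ rkey f key e < R a + B
    exact ⟨h4, by omega⟩
  · intro e he e' he' hee
    rw [Finset.mem_coe, Finset.mem_filter] at he he'
    exact rkey_inj f key hkey e e' (by rw [he.2, he'.2]) hee

end Pool.MP_d56194_co
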