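import Mathlib
import Pool.Agent.Lib.MP_d56194_co.K.K1

set_option autoImplicit false

namespace Pool.MP_d56194_co

open Finset

/-- From block counts at the levels to a chain of sets with row and column degrees at most `t`:
cells which exceed the capacity of their row length or column length are postponed. -/
theorem chain_of_levels (μ : YoungDiagram) (S B D : ℕ) (Ks : Finset ℕ) (ρ1 ρ2 : ℕ → ℕ)
    (ψ0 : μ.cells → ℕ) (hD : ∀ K ∈ Ks, K ≤ D)
    (h1r : ∀ K ∈ Ks, ∀ i, i < μ.colLen 0 → (univ.filter (fun e : μ.cells =>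
      μ.rowLen e.1.1 = μ.rowLen i ∧ ψ0 e < ρ1 K)).card ≤
        (rowsOf μ (μ.rowLen i)).card * K + B)
    (h1c : ∀ K ∈ Ks, ∀ x, x < μ.rowLen 0 → (univ.filter (fun e : μ.cells =>
      μ.colLen e.1.2 = μ.colLen x ∧ ψ0 e < ρ1 K)).card ≤
        (colsOf μ (μ.colLen x)).card * K + B)
    (h2r : ∀ K ∈ Ks, ∀ i, i < μ.colLen 0 → (univ.filter (fun e : μ.cells =>
      μ.rowLen e.1.1 = μ.rowLen i ∧ ψ0 e < ρ2 K)).card ≤
        (rowsOf μ (μ.rowLen i)).card * (K + S))
    (h2c : ∀ K ∈ Ks, ∀ x, x < μ.rowLen 0 → (univ.filter (fun e : μ.cells =>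
      μ.colLen e.1.2 = μ.colLen x ∧ ψ0 e < ρ2 K)).card ≤
        (colsOf μ (μ.colLen x)).card * (K + S)) :
    ∃ U : ℕ → Finset (ℕ × ℕ), (∀ t, U t ⊆ U (t + 1)) ∧ (∀ t, U t ⊆ μ.cells) ∧
      (∀ t i, ((U t).filter (fun x => x.1 = i)).card ≤ t) ∧
      (∀ t i, ((U t).filter (fun x => x.2 = i)).card ≤ t) ∧
      (∀ K ∈ Ks, (univ.filter (fun e : μ.cells => ψ0 e < ρ1 K)).card ≤ (U K).card +
        2 * (((range (μ.colLen 0)).image μ.rowLen).card * B)) ∧
      (∀ K ∈ Ks, K + S ≤ D →
        (univ.filter (fun e : μ.cells => ψ0 e < ρ2 K)).card ≤ (U (K + S)).card) := by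
  classical
  -- a key which orders by `ψ0`
  set M := Fintype.card μ.cells with hM
  set idx : μ.cells ≃ Fin M := Fintype.equivFin μ.cells with hidx
  set key : μ.cells → ℕ := fun e => ψ0 e * M + (idx e).1 with hkeydef
  have hkeylt : ∀ (e : μ.cells) (t : ℕ), key e < t * M ↔ ψ0 e < t := by
    intro e t
    have h1 := (idx e).2
    simp only [hkeydef]
    constructor
    · intro h
      by_contra hcon
      have h2 : t * M ≤ ψ0 e * M := Nat.mul_le_mul_right _ (by omega)
      omega
    · intro h
      have h2 : (ψ0 e + 1) * M ≤ t * M := Nat.mul_le_mul_right _ (by omega)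
      rw [Nat.add_mul, one_mul] at h2
      omega
  have hkey : Function.Injective key := by
    intro p q h
    have h1 : ψ0 p = ψ0 q := by
      have h2 := (hkeylt p (ψ0 q + 1)).mp (by
        rw [h]
        exact (hkeylt q (ψ0 q + 1)).mpr (by omega))
      have h3 := (hkeylt q (ψ0 p + 1)).mp (by
        rw [← h]
        exact (hkeylt p (ψ0 p + 1)).mpr (by omega))
      omega
    have h2 : (idx p).1 = (idx q).1 := by
      simp only [hkeydef] at h
      rw [h1] at h
      omega
    exact idx.injective (Fin.ext h2)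
  set fr : μ.cells → ℕ := fun e => μ.rowLen e.1.1 with hfr
  set fc : μ.cells → ℕ := fun e => μ.colLen e.1.2 with hfc
  set rr : ℕ → ℕ := fun l => (rowsOf μ l).card with hrr
  set cc : ℕ → ℕ := fun l => (colsOf μ l).card with hcc
  set Rel : μ.cells → ℕ → Prop := fun e k => (∃ K ∈ Ks, ψ0 e < ρ1 K ∧ K ≤ k) ∨
    (∃ K ∈ Ks, ψ0 e < ρ2 K ∧ K + S ≤ k) with hRel
  have hRelmono : ∀ e k k', k ≤ k' → Rel e k → Rel e k' := by
    intro e k k' hk h
    rcases h with ⟨K, h1, h2, h3⟩ | ⟨K, h1, h2, h3⟩
    · exact Or.inl ⟨K, h1, h2, by omega⟩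
    · exact Or.inr ⟨K, h1, h2, by omega⟩
  set In : μ.cells → ℕ → Prop := fun e k => Rel e k ∧ rkey fr key e < rr (fr e) * k ∧
    rkey fc key e < cc (fc e) * k with hIn
  have hInmono : ∀ e k k', k ≤ k' → In e k → In e k' := by
    intro e k k' hk h
    exact ⟨hRelmono e k k' hk h.1, lt_of_lt_of_le h.2.1 (Nat.mul_le_mul_left _ hk),
      lt_of_lt_of_le h.2.2 (Nat.mul_le_mul_left _ hk)⟩
  set Tm : μ.cells → ℕ := fun e => if h : ∃ k, In e k then Nat.find h else D + 1 with hTm
  have hTm1 : ∀ e k, k ≤ D → (Tm e < k + 1 ↔ In e k) := by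
    intro e k hk
    simp only [hTm]
    by_cases h : ∃ k, In e k
    · rw [dif_pos h]
      constructor
      · intro h1
        exact hInmono e _ k (by omega) (Nat.find_spec h)
      · intro h1
        have := Nat.find_min' h h1
        omega
    · rw [dif_neg h]
      constructor
      · intro h1
        omega
      · intro h1
        exact absurd ⟨k, h1⟩ h
  obtain ⟨ψ, hψr, hψc, hψt⟩ := detach_chain μ Tm
  set U : ℕ → Finset (ℕ × ℕ) := fun t =>
    (univ.filter (fun e : μ.cells => ψ e < min t D + 1)).image Subtype.val with hU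
  have hUcard : ∀ t, (U t).card = (univ.filter (fun e : μ.cells => ψ e < min t D + 1)).card :=
    fun t => Finset.card_image_of_injective _ Subtype.val_injective
  have hUrow : ∀ k i, ((U k).filter (fun x => x.1 = i)).card =
      (univ.filter (fun v : μ.cells => v.1.1 = i ∧ ψ v < min k D + 1)).card := by
    intro k i
    rw [← Finset.card_image_of_injective (univ.filter (fun v : μ.cells => v.1.1 = i ∧
      ψ v < min k D + 1)) Subtype.val_injective]
    congr 1
    ext x
    simp only [hU, Finset.mem_filter, Finset.mem_image, Finset.mem_univ, true_and]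
    constructor
    · rintro ⟨⟨e, h1, rfl⟩, h2⟩
      exact ⟨e, ⟨h2, h1⟩, rfl⟩
    · rintro ⟨e, ⟨h1, h2⟩, rfl⟩
      exact ⟨⟨e, h2, rfl⟩, h1⟩
  have hUcol : ∀ k i, ((U k).filter (fun x => x.2 = i)).card =
      (univ.filter (fun v : μ.cells => v.1.2 = i ∧ ψ v < min k D + 1)).card := by
    intro k i
    rw [← Finset.card_image_of_injective (univ.filter (fun v : μ.cells => v.1.2 = i ∧
      ψ v < min k D + 1)) Subtype.val_injective]
    congr 1
    ext x
    simp only [hU, Finset.mem_filter, Finset.mem_image, Finset.mem_univ, true_and]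
    constructor
    · rintro ⟨⟨e, h1, rfl⟩, h2⟩
      exact ⟨e, ⟨h2, h1⟩, rfl⟩
    · rintro ⟨e, ⟨h1, h2⟩, rfl⟩
      exact ⟨⟨e, h2, rfl⟩, h1⟩
  have harith : ∀ x c K : ℕ, 0 < c → x * c ≤ c * K + (c - 1) → x ≤ K := by
    intro x c K hc h
    by_contra hcon
    have h1 : (K + 1) * c ≤ x * c := Nat.mul_le_mul_right c (by omega)
    rw [Nat.add_mul, Nat.one_mul, Nat.mul_comm K c] at h1
    omega
  have hUsize : ∀ k, k ≤ D → (U k).card = (univ.filter (fun e : μ.cells => In e k)).card := by
    intro k hk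
    rw [hUcard, Nat.min_eq_left hk, hψt]
    congr 1
    apply Finset.filter_congr
    intro e _
    exact hTm1 e k hk
  refine ⟨U, ?_, ?_, ?_, ?_, ?_, ?_⟩
  · intro t
    apply Finset.image_subset_image
    intro e he
    rw [Finset.mem_filter] at he ⊢
    exact ⟨he.1, by omega⟩
  · intro t x hx
    simp only [hU, Finset.mem_image] at hx
    obtain ⟨e, _, rfl⟩ := hx
    exact e.2
  · intro t i
    rw [hUrow]
    by_cases hi : i < μ.colLen 0
    · refine le_trans ?_ (Nat.min_le_left t D)
      have hpos : 0 < (rowsOf μ (μ.rowLen i)).card :=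
        Finset.card_pos.mpr ⟨i, (mem_rowsOf _ _ _).mpr ⟨hi, rfl⟩⟩
      apply harith _ _ _ hpos
      refine (hψr i (min t D + 1) hi).trans (Nat.add_le_add_right ?_ _)
      refine le_trans (Finset.card_le_card ?_)
        (rank_card fr key hkey (μ.rowLen i) (rr (μ.rowLen i) * min t D))
      intro e he
      rw [Finset.mem_filter] at he ⊢
      have h1 := (hTm1 e (min t D) (Nat.min_le_right t D)).mp he.2.2
      refine ⟨he.1, he.2.1, ?_⟩
      have h2 := h1.2.1
      have h3 : fr e = μ.rowLen i := he.2.1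
      rw [h3] at h2
      exact h2
    · rw [Finset.filter_eq_empty_iff.mpr, Finset.card_empty]
      · exact Nat.zero_le _
      · intro e _ he
        have := (cell_lt μ e.1 e.2).1
        omega
  · intro t i
    rw [hUcol]
    by_cases hi : i < μ.rowLen 0
    · refine le_trans ?_ (Nat.min_le_left t D)
      have hpos : 0 < (colsOf μ (μ.colLen i)).card :=
        Finset.card_pos.mpr ⟨i, (mem_colsOf _ _ _).mpr ⟨hi, rfl⟩⟩
      apply harith _ _ _ hpos
      refine (hψc i (min t D + 1) hi).trans (Nat.add_le_add_right ?_ _)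
      refine le_trans (Finset.card_le_card ?_)
        (rank_card fc key hkey (μ.colLen i) (cc (μ.colLen i) * min t D))
      intro e he
      rw [Finset.mem_filter] at he ⊢
      have h1 := (hTm1 e (min t D) (Nat.min_le_right t D)).mp he.2.2
      refine ⟨he.1, he.2.1, ?_⟩
      have h2 := h1.2.2
      have h3 : fc e = μ.colLen i := he.2.1
      rw [h3] at h2
      exact h2
    · rw [Finset.filter_eq_empty_iff.mpr, Finset.card_empty]
      · exact Nat.zero_le _
      · intro e _ he
        have := (cell_lt μ e.1 e.2).2.1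
        omega
  · intro K hK
    rw [hUsize K (hD K hK)]
    have e1 : ∀ (p : μ.cells → Prop) [DecidablePred p], (univ.filter (fun e : μ.cells =>
        p e ∧ ψ0 e < ρ1 K)).card = (univ.filter (fun e : μ.cells =>
        p e ∧ key e < ρ1 K * M)).card := by
      intro p _
      congr 1
      apply Finset.filter_congr
      intro e _
      rw [hkeylt]
    have hA := excess_card fr key hkey (ρ1 K * M) ((range (μ.colLen 0)).image μ.rowLen)
      (fun e => Finset.mem_image_of_mem _ (Finset.mem_range.mpr (cell_lt μ e.1 e.2).1))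
      (fun l => rr l * K) B (by
        intro l hl
        rw [Finset.mem_image] at hl
        obtain ⟨i, hi, rfl⟩ := hl
        have h2 := h1r K hK i (Finset.mem_range.mp hi)
        rw [e1 (fun e => μ.rowLen e.1.1 = μ.rowLen i)] at h2
        exact h2)
    have hB := excess_card fc key hkey (ρ1 K * M) ((range (μ.rowLen 0)).image μ.colLen)
      (fun e => Finset.mem_image_of_mem _ (Finset.mem_range.mpr (cell_lt μ e.1 e.2).2.1))
      (fun l => cc l * K) B (by
        intro l hl
        rw [Finset.mem_image] at hl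
        obtain ⟨i, hi, rfl⟩ := hl
        have h2 := h1c K hK i (Finset.mem_range.mp hi)
        rw [e1 (fun e => μ.colLen e.1.2 = μ.colLen i)] at h2
        exact h2)
    have hB' := hB.trans (Nat.mul_le_mul_right B (card_heights μ))
    have hsub : univ.filter (fun e : μ.cells => ψ0 e < ρ1 K) ⊆
        univ.filter (fun e : μ.cells => In e K) ∪
        (univ.filter (fun e : μ.cells => key e < ρ1 K * M ∧ rr (fr e) * K ≤ rkey fr key e) ∪
        univ.filter (fun e : μ.cells => key e < ρ1 K * M ∧ cc (fc e) * K ≤ rkey fc key e)) := by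
      intro e he
      rw [Finset.mem_filter] at he
      rw [Finset.mem_union, Finset.mem_union, Finset.mem_filter, Finset.mem_filter,
        Finset.mem_filter]
      have hk := (hkeylt e (ρ1 K)).mpr he.2
      by_cases h1 : rr (fr e) * K ≤ rkey fr key e
      · exact Or.inr (Or.inl ⟨he.1, hk, h1⟩)
      · by_cases h2 : cc (fc e) * K ≤ rkey fc key e
        · exact Or.inr (Or.inr ⟨he.1, hk, h2⟩)
        · exact Or.inl ⟨he.1, Or.inl ⟨K, hK, he.2, le_rfl⟩, not_le.mp h1, not_le.mp h2⟩
    have h3 := Finset.card_le_card hsub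
    have h4 := Finset.card_union_le (univ.filter (fun e : μ.cells => In e K))
        (univ.filter (fun e : μ.cells => key e < ρ1 K * M ∧ rr (fr e) * K ≤ rkey fr key e) ∪
        univ.filter (fun e : μ.cells => key e < ρ1 K * M ∧ cc (fc e) * K ≤ rkey fc key e))
    have h5 := Finset.card_union_le
        (univ.filter (fun e : μ.cells => key e < ρ1 K * M ∧ rr (fr e) * K ≤ rkey fr key e))
        (univ.filter (fun e : μ.cells => key e < ρ1 K * M ∧ cc (fc e) * K ≤ rkey fc key e))
    omega
  · intro K hK hKS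
    rw [hUsize (K + S) hKS]
    apply Finset.card_le_card
    intro e he
    rw [Finset.mem_filter] at he ⊢
    have hk := (hkeylt e (ρ2 K)).mpr he.2
    refine ⟨he.1, Or.inr ⟨K, hK, he.2, le_rfl⟩, ?_, ?_⟩
    · refine lt_of_lt_of_le (rkey_lt fr key e _ hk) ?_
      have h1 := h2r K hK e.1.1 (cell_lt μ e.1 e.2).1
      refine le_trans (le_of_eq ?_) h1
      congr 1
      apply Finset.filter_congr
      intro e' _
      rw [hkeylt]
    · refine lt_of_lt_of_le (rkey_lt fc key e _ hk) ?_
      have h1 := h2c K hK e.1.2 (cell_lt μ e.1 e.2).2.1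
      refine le_trans (le_of_eq ?_) h1
      congr 1
      apply Finset.filter_congr
      intro e' _
      rw [hkeylt]

end Pool.MP_d56194_co
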