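import Mathlib
import Pool.Agent.Lib.MP_d56194_co.K.K2

set_option autoImplicit false

namespace Pool.MP_d56194_co

open Finset

/-- The balanced block colouring at the levels `K` and `K + S / 2`. -/
theorem block_prefix2 (μ : YoungDiagram) (g S : ℕ) (hg : MultAtLeast μ g)
    (hS : 286 * (Nat.log 2 ((range (μ.colLen 0)).image μ.rowLen).card + 1) ≤ g * S)
    (Ks : Finset ℕ) (hK : Ks.card ≤ 2 * (grid μ).card) :
    ∃ (ρ1 ρ2 : ℕ → ℕ) (ψ0 : μ.cells → ℕ), ∀ K ∈ Ks,
      (∀ i, i < μ.colLen 0 → (univ.filter (fun e : μ.cells =>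
        μ.rowLen e.1.1 = μ.rowLen i ∧ ψ0 e < ρ1 K)).card ≤ (rowsOf μ (μ.rowLen i)).card * K +
          143 * (Nat.log 2 ((range (μ.colLen 0)).image μ.rowLen).card + 1)) ∧
      (∀ x, x < μ.rowLen 0 → (univ.filter (fun e : μ.cells =>
        μ.colLen e.1.2 = μ.colLen x ∧ ψ0 e < ρ1 K)).card ≤ (colsOf μ (μ.colLen x)).card * K +
          143 * (Nat.log 2 ((range (μ.colLen 0)).image μ.rowLen).card + 1)) ∧
      (∀ i, i < μ.colLen 0 → (univ.filter (fun e : μ.cells =>
        μ.rowLen e.1.1 = μ.rowLen i ∧ ψ0 e < ρ2 K)).card ≤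
          (rowsOf μ (μ.rowLen i)).card * (K + S)) ∧
      (∀ x, x < μ.rowLen 0 → (univ.filter (fun e : μ.cells =>
        μ.colLen e.1.2 = μ.colLen x ∧ ψ0 e < ρ2 K)).card ≤
          (colsOf μ (μ.colLen x)).card * (K + S)) ∧
      gcut (μ.colLen 0) μ.rowLen K ≤ (univ.filter (fun e : μ.cells => ψ0 e < ρ1 K)).card +
        143 * (Nat.log 2 ((range (μ.colLen 0)).image μ.rowLen).card + 1) ∧
      (K + S < max (μ.colLen 0) (μ.rowLen 0) →
        gcut (μ.colLen 0) μ.rowLen K ≤ (univ.filter (fun e : μ.cells => ψ0 e < ρ2 K)).card) := by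
  classical
  set s := ((range (μ.colLen 0)).image μ.rowLen).card with hs
  obtain ⟨T, y, hy0, hyT, hy1, hyr, hyc, hyt⟩ := real_cells μ
  set w : μ.cells → ℕ → ℝ := fun e v => y e (v / 2) / 2 with hw
  have hw0 : ∀ e v, 0 ≤ w e v := by
    intro e v
    simp only [hw]
    have := hy0 e (v / 2)
    linarith
  have hw1 : ∀ e, ∑ v ∈ range (2 * T), w e v = 1 := by
    intro e
    rw [← hy1 e]
    exact half_sum (y e) T
  set Λ := Ks.image (fun K => 2 * K) ∪ Ks.image (fun K => 2 * K + S) with hΛ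
  set ρ : ℕ → ℕ := fun x => (Λ.filter (fun y => y ≤ x)).card with hρ
  have hγJ : ∀ v, ρ v < Λ.card + 1 := by
    intro v
    have := Finset.card_filter_le Λ (fun y => y ≤ v)
    simp only [hρ]
    omega
  have hΛc : Λ.card ≤ 2 * Ks.card := by
    refine le_trans (Finset.card_union_le _ _) ?_
    have h1 : (Ks.image (fun K => 2 * K)).card ≤ Ks.card := Finset.card_image_le
    have h2 : (Ks.image (fun K => 2 * K + S)).card ≤ Ks.card := Finset.card_image_le
    omega
  set Ls := (range (μ.colLen 0)).image μ.rowLen with hLs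
  set Hs := (range (μ.rowLen 0)).image μ.colLen with hHs
  have hLm : ∀ e : μ.cells, μ.rowLen e.1.1 ∈ Ls := fun e =>
    Finset.mem_image_of_mem _ (Finset.mem_range.mpr (cell_lt μ e.1 e.2).1)
  have hHm : ∀ e : μ.cells, μ.colLen e.1.2 ∈ Hs := fun e =>
    Finset.mem_image_of_mem _ (Finset.mem_range.mpr (cell_lt μ e.1 e.2).2.1)
  set f : μ.cells → Ls × Hs := fun e => (⟨μ.rowLen e.1.1, hLm e⟩, ⟨μ.colLen e.1.2, hHm e⟩) with hf
  have hgood : ∀ q : Ls × Hs, (univ.filter (fun c => goodC c q)).card ≤ 3 := by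
    intro q
    have h1 : (univ.filter (fun c => goodC c q)) ⊆
        {Sum.inl q.1, Sum.inr (Sum.inl q.2), Sum.inr (Sum.inr ())} := by
      intro c hc
      rw [Finset.mem_filter] at hc
      rcases c with l | h | u
      · have h2 : q.1 = l := hc.2
        simp [h2]
      · have h2 : q.2 = h := hc.2
        simp [h2]
      · simp
    exact le_trans (Finset.card_le_card h1) Finset.card_le_three
  have hL : Fintype.card (Ls × Hs) * (Λ.card + 1) * 3 ^ (13 * (Nat.log 2 s + 1)) <
      4 ^ (13 * (Nat.log 2 s + 1)) := by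
    apply phases_enough3
    have h1 : Fintype.card (Ls × Hs) ≤ s * s := by
      rw [Fintype.card_prod, Fintype.card_coe, Fintype.card_coe]
      exact Nat.mul_le_mul le_rfl (card_heights μ)
    have h2 := card_grid μ s le_rfl
    have h3 : Λ.card + 1 ≤ 4 * ((s + 1) * (s + 1)) + 1 := by omega
    exact Nat.mul_le_mul h1 h3
  obtain ⟨ψ0, hψ0⟩ := block_round f goodC hgood (2 * T) w hw0 hw1 ρ (Λ.card + 1) hγJ
    (13 * (Nat.log 2 s + 1)) hL
  have e143 : (11 : ℝ) * ((13 * (Nat.log 2 s + 1) : ℕ) : ℝ) =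
      ((143 * (Nat.log 2 s + 1) : ℕ) : ℝ) := by push_cast; ring
  rw [e143] at hψ0
  set B := 143 * (Nat.log 2 s + 1) with hB
  have hBS : 2 * B ≤ g * S := by
    rw [hB]
    omega
  have hρJ : ∀ x, ρ x ≤ Λ.card + 1 := fun x => (hγJ x).le
  have hlev : ∀ x ∈ Λ, ∀ v, ρ v < ρ x ↔ v < x := fun x hx v => lev_iff Λ x v hx
  -- the rows
  have hrowB : ∀ x ∈ Λ, ∀ i, i < μ.colLen 0 → 2 * ((univ.filter (fun e : μ.cells =>
      μ.rowLen e.1.1 = μ.rowLen i ∧ ψ0 e < ρ x)).card : ℝ) ≤
      ((rowsOf μ (μ.rowLen i)).card : ℝ) * x + 2 * B := by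
    intro x hx i hi
    have hmem : μ.rowLen i ∈ Ls := Finset.mem_image_of_mem _ (Finset.mem_range.mpr hi)
    have h1 := hψ0 (Sum.inl ⟨μ.rowLen i, hmem⟩) (ρ x) (hρJ x)
    have h2 : (univ.filter (fun e : μ.cells => goodC (Sum.inl ⟨μ.rowLen i, hmem⟩) (f e) ∧
        ψ0 e < ρ x)).card = (univ.filter (fun e : μ.cells => μ.rowLen e.1.1 = μ.rowLen i ∧
        ψ0 e < ρ x)).card := by
      congr 1
      ext e
      simp only [Finset.mem_filter, Finset.mem_univ, true_and, goodC, hf, Subtype.mk.injEq]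
    rw [h2] at h1
    have h3 := label_bound w hw0 (fun e => e.1.1) (by
        intro i' v
        have h4 := hyr i' (v / 2)
        have h5 : (∑ e : μ.cells, if e.1.1 = i' then w e v else 0) =
            (∑ e : μ.cells, if e.1.1 = i' then y e (v / 2) else 0) / 2 := by
          rw [Finset.sum_div]
          apply Finset.sum_congr rfl
          intro e _
          simp only [hw]
          split_ifs
          · rfl
          · simp
        rw [h5]
        linarith) (rowsOf μ (μ.rowLen i))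
        (fun e => goodC (Sum.inl ⟨μ.rowLen i, hmem⟩) (f e))
        (by
          intro e he
          have h6 : μ.rowLen e.1.1 = μ.rowLen i := by
            simp only [goodC, hf, Subtype.mk.injEq] at he
            exact he
          exact (mem_rowsOf _ _ _).mpr ⟨(cell_lt μ e.1 e.2).1, h6⟩)
        (2 * T) x (fun v => ρ v < ρ x) (fun v hv => (hlev x hx v).mp hv)
    have h8 := (abs_le.mp h1).2
    have e1 : (x : ℝ) * (((rowsOf μ (μ.rowLen i)).card : ℝ) / 2) =
        ((rowsOf μ (μ.rowLen i)).card : ℝ) * x / 2 := by ring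
    rw [e1] at h3
    linarith
  have hcolB : ∀ x ∈ Λ, ∀ i, i < μ.rowLen 0 → 2 * ((univ.filter (fun e : μ.cells =>
      μ.colLen e.1.2 = μ.colLen i ∧ ψ0 e < ρ x)).card : ℝ) ≤
      ((colsOf μ (μ.colLen i)).card : ℝ) * x + 2 * B := by
    intro x hx i hi
    have hmem : μ.colLen i ∈ Hs := Finset.mem_image_of_mem _ (Finset.mem_range.mpr hi)
    have h1 := hψ0 (Sum.inr (Sum.inl ⟨μ.colLen i, hmem⟩)) (ρ x) (hρJ x)
    have h2 : (univ.filter (fun e : μ.cells => goodC (Sum.inr (Sum.inl ⟨μ.colLen i, hmem⟩)) (f e) ∧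
        ψ0 e < ρ x)).card = (univ.filter (fun e : μ.cells => μ.colLen e.1.2 = μ.colLen i ∧
        ψ0 e < ρ x)).card := by
      congr 1
      ext e
      simp only [Finset.mem_filter, Finset.mem_univ, true_and, goodC, hf, Subtype.mk.injEq]
    rw [h2] at h1
    have h3 := label_bound w hw0 (fun e => e.1.2) (by
        intro i' v
        have h4 := hyc i' (v / 2)
        have h5 : (∑ e : μ.cells, if e.1.2 = i' then w e v else 0) =
            (∑ e : μ.cells, if e.1.2 = i' then y e (v / 2) else 0) / 2 := by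
          rw [Finset.sum_div]
          apply Finset.sum_congr rfl
          intro e _
          simp only [hw]
          split_ifs
          · rfl
          · simp
        rw [h5]
        linarith) (colsOf μ (μ.colLen i))
        (fun e => goodC (Sum.inr (Sum.inl ⟨μ.colLen i, hmem⟩)) (f e))
        (by
          intro e he
          have h6 : μ.colLen e.1.2 = μ.colLen i := by
            simp only [goodC, hf, Subtype.mk.injEq] at he
            exact he
          exact (mem_colsOf _ _ _).mpr ⟨(cell_lt μ e.1 e.2).2.1, h6⟩)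
        (2 * T) x (fun v => ρ v < ρ x) (fun v hv => (hlev x hx v).mp hv)
    have h8 := (abs_le.mp h1).2
    have e1 : (x : ℝ) * (((colsOf μ (μ.colLen i)).card : ℝ) / 2) =
        ((colsOf μ (μ.colLen i)).card : ℝ) * x / 2 := by ring
    rw [e1] at h3
    linarith
  -- the totals
  have htotB : ∀ x ∈ Λ, ∑ v ∈ range x, (∑ e, y e (v / 2)) / 2 ≤
      ((univ.filter (fun e : μ.cells => ψ0 e < ρ x)).card : ℝ) + B := by
    intro x hx
    have h1 := hψ0 (Sum.inr (Sum.inr ())) (ρ x) (hρJ x)
    have h2 : (univ.filter (fun e : μ.cells => goodC (Sum.inr (Sum.inr ())) (f e) ∧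
        ψ0 e < ρ x)).card = (univ.filter (fun e : μ.cells => ψ0 e < ρ x)).card := by
      congr 1
      ext e
      simp only [Finset.mem_filter, Finset.mem_univ, true_and, goodC]
    rw [h2] at h1
    have h3 := (abs_le.mp h1).1
    have h4 : ∑ e, ∑ v ∈ range (2 * T), (if goodC (Sum.inr (Sum.inr ())) (f e) ∧ ρ v < ρ x
        then w e v else 0) = ∑ v ∈ range x, (∑ e, y e (v / 2)) / 2 := by
      rw [Finset.sum_comm]
      have h5 : ∀ v ∈ range (2 * T), (∑ e, if goodC (Sum.inr (Sum.inr ())) (f e) ∧ ρ v < ρ x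
          then w e v else 0) = if v < x then (∑ e, y e (v / 2)) / 2 else 0 := by
        intro v _
        by_cases hv : v < x
        · rw [if_pos hv, Finset.sum_div]
          apply Finset.sum_congr rfl
          intro e _
          rw [if_pos ⟨trivial, (hlev x hx v).mpr hv⟩]
        · rw [if_neg hv]
          apply Finset.sum_eq_zero
          intro e _
          rw [if_neg]
          rintro ⟨_, h6⟩
          exact hv ((hlev x hx v).mp h6)
      rw [Finset.sum_congr rfl h5, ← Finset.sum_filter]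
      apply Finset.sum_subset_zero_on_sdiff
      · intro v hv
        rw [Finset.mem_filter] at hv
        exact Finset.mem_range.mpr hv.2
      · intro v hv
        rw [Finset.mem_sdiff, Finset.mem_filter, Finset.mem_range, Finset.mem_range] at hv
        have h6 : T ≤ v / 2 := by omega
        rw [Finset.sum_eq_zero (fun e _ => hyT e (v / 2) h6)]
        simp
      · intro v _
        rfl
    rw [h4] at h3
    linarith
  refine ⟨fun K => ρ (2 * K), fun K => ρ (2 * K + S), ψ0, ?_⟩
  intro K hKK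
  beta_reduce
  have hx1 : 2 * K ∈ Λ := Finset.mem_union_left _ (Finset.mem_image_of_mem _ hKK)
  have hx2 : 2 * K + S ∈ Λ := Finset.mem_union_right _
    (Finset.mem_image.mpr ⟨K, hKK, rfl⟩)
  refine ⟨?_, ?_, ?_, ?_, ?_, ?_⟩
  · intro i hi
    have h1 := hrowB _ hx1 i hi
    have h2 : ((2 * (univ.filter (fun e : μ.cells =>
        μ.rowLen e.1.1 = μ.rowLen i ∧ ψ0 e < ρ (2 * K))).card : ℕ) : ℝ) ≤
        (((rowsOf μ (μ.rowLen i)).card * (2 * K) + 2 * B : ℕ) : ℝ) := by
      push_cast
      push_cast at h1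
      linarith
    have h3 : 2 * (univ.filter (fun e : μ.cells =>
        μ.rowLen e.1.1 = μ.rowLen i ∧ ψ0 e < ρ (2 * K))).card ≤
        (rowsOf μ (μ.rowLen i)).card * (2 * K) + 2 * B := by exact_mod_cast h2
    have h4 : (rowsOf μ (μ.rowLen i)).card * (2 * K) = 2 * ((rowsOf μ (μ.rowLen i)).card * K) := by
      ring
    rw [h4] at h3
    omega
  · intro i hi
    have h1 := hcolB _ hx1 i hi
    have h2 : ((2 * (univ.filter (fun e : μ.cells =>
        μ.colLen e.1.2 = μ.colLen i ∧ ψ0 e < ρ (2 * K))).card : ℕ) : ℝ) ≤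
        (((colsOf μ (μ.colLen i)).card * (2 * K) + 2 * B : ℕ) : ℝ) := by
      push_cast
      push_cast at h1
      linarith
    have h3 : 2 * (univ.filter (fun e : μ.cells =>
        μ.colLen e.1.2 = μ.colLen i ∧ ψ0 e < ρ (2 * K))).card ≤
        (colsOf μ (μ.colLen i)).card * (2 * K) + 2 * B := by exact_mod_cast h2
    have h4 : (colsOf μ (μ.colLen i)).card * (2 * K) = 2 * ((colsOf μ (μ.colLen i)).card * K) := by
      ring
    rw [h4] at h3
    omega
  · intro i hi
    have h1 := hrowB _ hx2 i hi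
    have h2 : ((2 * (univ.filter (fun e : μ.cells =>
        μ.rowLen e.1.1 = μ.rowLen i ∧ ψ0 e < ρ (2 * K + S))).card : ℕ) : ℝ) ≤
        (((rowsOf μ (μ.rowLen i)).card * (2 * K + S) + 2 * B : ℕ) : ℝ) := by
      push_cast
      push_cast at h1
      linarith
    have h3 : 2 * (univ.filter (fun e : μ.cells =>
        μ.rowLen e.1.1 = μ.rowLen i ∧ ψ0 e < ρ (2 * K + S))).card ≤
        (rowsOf μ (μ.rowLen i)).card * (2 * K + S) + 2 * B := by exact_mod_cast h2
    have h4 : (rowsOf μ (μ.rowLen i)).card * (2 * K + S) + g * S ≤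
        2 * ((rowsOf μ (μ.rowLen i)).card * (K + S)) := by
      have h5 : g * S ≤ (rowsOf μ (μ.rowLen i)).card * S := Nat.mul_le_mul_right S (hg.1 i hi)
      calc (rowsOf μ (μ.rowLen i)).card * (2 * K + S) + g * S
          ≤ (rowsOf μ (μ.rowLen i)).card * (2 * K + S) + (rowsOf μ (μ.rowLen i)).card * S :=
            Nat.add_le_add_left h5 _
        _ = 2 * ((rowsOf μ (μ.rowLen i)).card * (K + S)) := by ring
    omega
  · intro i hi
    have h1 := hcolB _ hx2 i hi
    have h2 : ((2 * (univ.filter (fun e : μ.cells =>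
        μ.colLen e.1.2 = μ.colLen i ∧ ψ0 e < ρ (2 * K + S))).card : ℕ) : ℝ) ≤
        (((colsOf μ (μ.colLen i)).card * (2 * K + S) + 2 * B : ℕ) : ℝ) := by
      push_cast
      push_cast at h1
      linarith
    have h3 : 2 * (univ.filter (fun e : μ.cells =>
        μ.colLen e.1.2 = μ.colLen i ∧ ψ0 e < ρ (2 * K + S))).card ≤
        (colsOf μ (μ.colLen i)).card * (2 * K + S) + 2 * B := by exact_mod_cast h2
    have h4 : (colsOf μ (μ.colLen i)).card * (2 * K + S) + g * S ≤
        2 * ((colsOf μ (μ.colLen i)).card * (K + S)) := by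
      have h5 : g * S ≤ (colsOf μ (μ.colLen i)).card * S := Nat.mul_le_mul_right S (hg.2 i hi)
      calc (colsOf μ (μ.colLen i)).card * (2 * K + S) + g * S
          ≤ (colsOf μ (μ.colLen i)).card * (2 * K + S) + (colsOf μ (μ.colLen i)).card * S :=
            Nat.add_le_add_left h5 _
        _ = 2 * ((colsOf μ (μ.colLen i)).card * (K + S)) := by ring
    omega
  · have h1 := htotB _ hx1
    rw [half_sum (fun j => ∑ e, y e j) K] at h1
    have h2 := (hyt K).trans h1
    have h3 : (gcut (μ.colLen 0) μ.rowLen K : ℝ) ≤ (((univ.filter (fun e : μ.cells =>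
        ψ0 e < ρ (2 * K))).card + B : ℕ) : ℝ) := by
      push_cast
      exact h2
    exact_mod_cast h3
  · intro hKD
    have h1 := htotB _ hx2
    have h5 := half_total μ g S K hg hKD (fun j => ∑ e, y e j) hyt
    have h6 : (2 : ℝ) * B ≤ (g : ℝ) * S := by exact_mod_cast hBS
    have h7 : (gcut (μ.colLen 0) μ.rowLen K : ℝ) ≤
        ((univ.filter (fun e : μ.cells => ψ0 e < ρ (2 * K + S))).card : ℝ) := by
      linarith
    exact_mod_cast h7

end Pool.MP_d56194_co
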