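import Mathlib
import Pool.Agent.Lib.MP_d56194_co.K.K3

set_option autoImplicit false

namespace Pool.MP_d56194_co

open Finset

/-- A lower bound at the levels extends to all numbers of colours by concavity. -/
theorem interp (P : ℕ → ℕ) (Q : ℕ → ℕ) (r E D : ℕ) (Ks : Finset ℕ)
    (hQ : ∀ x y z, x ≤ y → y ≤ z → (z - y) * Q x + (y - x) * Q z ≤ (z - x) * Q y)
    (hPK : ∀ K ∈ Ks, P K ≤ Q (K + r) + E)
    (hlev : ∀ k, k ≤ D → ∃ k1 ∈ Ks, ∃ k2 ∈ Ks, ∃ s d : ℕ, k1 ≤ k ∧ k ≤ k2 ∧
        P k1 = k1 * s + d ∧ P k = k * s + d ∧ P k2 = k2 * s + d) (k : ℕ) (hk : k ≤ D) :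
    P k ≤ Q (k + r) + E := by
  obtain ⟨k1, hk1, k2, hk2, s, d, a1, a2, a3, a4, a5⟩ := hlev k hk
  have b1 := hPK k1 hk1
  have b2 := hPK k2 hk2
  rw [a3] at b1
  rw [a5] at b2
  rw [a4]
  obtain ⟨u, rfl⟩ := Nat.exists_eq_add_of_le a1
  obtain ⟨w, rfl⟩ := Nat.exists_eq_add_of_le a2
  rcases Nat.eq_zero_or_pos (u + w) with h0 | h0
  · have hu : u = 0 := by omega
    subst hu
    simpa using b1
  · have b3 := hQ (k1 + r) (k1 + u + r) (k1 + u + w + r) (by omega) (by omega)
    have e1 : k1 + u + w + r - (k1 + u + r) = w := by omega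
    have e2 : k1 + u + r - (k1 + r) = u := by omega
    have e3 : k1 + u + w + r - (k1 + r) = u + w := by omega
    rw [e1, e2, e3] at b3
    apply Nat.le_of_mul_le_mul_left _ h0
    calc (u + w) * ((k1 + u) * s + d)
        = w * (k1 * s + d) + u * ((k1 + u + w) * s + d) := by ring
      _ ≤ w * (Q (k1 + r) + E) + u * (Q (k1 + u + w + r) + E) :=
          Nat.add_le_add (Nat.mul_le_mul_left w b1) (Nat.mul_le_mul_left u b2)
      _ = (w * Q (k1 + r) + u * Q (k1 + u + w + r)) + (u + w) * E := by ring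
      _ ≤ (u + w) * Q (k1 + u + r) + (u + w) * E := Nat.add_le_add_right b3 _
      _ = (u + w) * (Q (k1 + u + r) + E) := by ring

/-- The conjecture up to a shift of the colours and up to a number of cells. -/
theorem shift_and_cells (μ : YoungDiagram) (g S : ℕ) (hg : MultAtLeast μ g)
    (hS : 286 * (Nat.log 2 ((range (μ.colLen 0)).image μ.rowLen).card + 1) ≤ g * S) :
    ∃ c : ℕ × ℕ → ℕ, ProperOn μ.cells c ∧
      (∀ x ∈ μ.cells, c x < max (μ.colLen 0) (μ.rowLen 0)) ∧
      (∀ k, gcut (μ.colLen 0) μ.rowLen k ≤ (μ.cells.filter (fun x => c x < k + S)).card) ∧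
      ∀ k, gcut (μ.colLen 0) μ.rowLen k ≤ (μ.cells.filter (fun x => c x < k)).card +
        143 * (2 * ((range (μ.colLen 0)).image μ.rowLen).card + 1) *
          (Nat.log 2 ((range (μ.colLen 0)).image μ.rowLen).card + 1) := by
  classical
  set D := max (μ.colLen 0) (μ.rowLen 0) with hD
  set s := ((range (μ.colLen 0)).image μ.rowLen).card with hs
  obtain ⟨Ks, hK1, hK2, hK3⟩ := exists_levels μ D
  obtain ⟨ρ1, ρ2, ψ0, hψ0⟩ := block_prefix2 μ g S hg hS Ks hK1
  set B := 143 * (Nat.log 2 s + 1) with hB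
  obtain ⟨U, hU1, hU2, hU3, hU4, hU5, hU6⟩ := chain_of_levels μ S B D Ks ρ1 ρ2 ψ0 hK2
    (fun K hK => (hψ0 K hK).1) (fun K hK => (hψ0 K hK).2.1) (fun K hK => (hψ0 K hK).2.2.1)
    (fun K hK => (hψ0 K hK).2.2.2.1)
  obtain ⟨c1, h1, h2, h3⟩ := chain_col U hU1 0 (fun t i => (hU3 t i).trans (Nat.le_add_right t 0))
    (fun t i => (hU4 t i).trans (Nat.le_add_right t 0)) D
  obtain ⟨c2, h4, h5, h6⟩ := extend_col μ.cells D (row_card_le μ) (col_card_le μ) _ (U D) c1
    le_rfl (hU2 D) h1 (fun x hx => lt_of_lt_of_le (h2 x hx) (by omega))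
  obtain ⟨c3, h7, h8, h9, h10⟩ := sort_col μ.cells c2 h4 D h5
  have hUc : ∀ t, t ≤ D → (U t).card ≤ (μ.cells.filter (fun x => c3 x < t)).card := by
    intro t ht
    refine le_trans (h3 t ht) (le_trans ?_ (h9 t))
    rw [card_lt_eq_sum, card_lt_eq_sum]
    exact Finset.sum_le_sum (fun j _ => h6 j)
  have htop : ∀ k, D ≤ k → gcut (μ.colLen 0) μ.rowLen k ≤ μ.cells.card := by
    intro k _
    rw [cells_card_eq]
    exact gcut_le_total _ _ k
  have hall : ∀ k, D ≤ k → μ.cells.filter (fun x => c3 x < k) = μ.cells := by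
    intro k hk
    exact Finset.filter_true_of_mem (fun x hx => lt_of_lt_of_le (h8 x hx) hk)
  refine ⟨c3, h7, h8, ?_, ?_⟩
  · intro k
    rcases Nat.lt_or_ge D k with hk | hk
    · rw [hall (k + S) (by omega)]
      exact htop k hk.le
    · have := interp (gcut (μ.colLen 0) μ.rowLen)
        (fun x => (μ.cells.filter (fun v => c3 v < x)).card) S 0 D Ks h10
        (by
          intro K hK
          rw [Nat.add_zero]
          rcases Nat.lt_or_ge (K + S) D with hKS | hKS
          · refine ((hψ0 K hK).2.2.2.2.2 hKS).trans ((hU6 K hK hKS.le).trans ?_)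
            exact hUc (K + S) hKS.le
          · beta_reduce
            rw [hall (K + S) hKS, cells_card_eq]
            exact gcut_le_total _ _ K) hK3 k hk
      exact this
  · intro k
    rcases Nat.lt_or_ge D k with hk | hk
    · rw [hall k hk.le]
      exact (htop k hk.le).trans (Nat.le_add_right _ _)
    · have := interp (gcut (μ.colLen 0) μ.rowLen)
        (fun x => (μ.cells.filter (fun v => c3 v < x)).card) 0
        (143 * (2 * s + 1) * (Nat.log 2 s + 1)) D Ks h10
        (by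
          intro K hK
          rw [Nat.add_zero]
          have a1 := (hψ0 K hK).2.2.2.2.1
          have a2 := hU5 K hK
          rw [← hs] at a2
          have a3 := hUc K (hK2 K hK)
          have a4 : 143 * (2 * s + 1) * (Nat.log 2 s + 1) = 2 * (s * B) + B := by
            rw [hB]
            ring
          beta_reduce
          rw [a4]
          omega) hK3 k hk
      exact this

end Pool.MP_d56194_co
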